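import Pool.Agent.Lib.MP_3489e4_al.Negative

namespace Pool.Agent.Results.MP_3489e4_al.GeodesicNotShortLex

open Pool.Agent.Lib.MP_3489e4_al

/-- There is a group with a finite inverse-closed generating set with respect to which it is
weakly geodesically automatic, but ShortLex-automatic for no total order of the generators. -/
theorem result : ∃ (G : Type) (_ : Group G) (A : Finset G),
    Subgroup.closure (A : Set G) = ⊤ ∧ (∀ a ∈ A, a⁻¹ ∈ A) ∧
    (∃ L : Language A, IsAutomaticStructure A L ∧ ∀ w ∈ L, IsGeodesic w) ∧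
    ∀ r : LinearOrder A, ¬ IsAutomaticStructure A (shortLexLang A r) :=
  ⟨Gr, inferInstance, Gr.gens, Gr.gens_closure, Gr.gens_inv,
    ⟨Gr.NF, Gr.NF_automatic, Gr.NF_geodesic⟩, Gr.not_shortLex⟩

end Pool.Agent.Results.MP_3489e4_al.GeodesicNotShortLex
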